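import Pool.Agent.NCub.Stmts

/-!
# MP_7e2fab_co, squad NC, row LIN (helper56): three lines
-/

set_option autoImplicit false

namespace Pool.Agent.NCub.H56

open Pool.Agent.OM Polynomial

/-- An affine line from a linear form. -/
theorem exists_line {l : V} {p : ℝ × ℝ} (hl : l ≠ 0) (hp : ev l (hat p) = 0) :
    ∃ L : AffineSubspace ℝ (ℝ × ℝ), IsLine L ∧ ∀ x : ℝ × ℝ, ev l (hat x) = 0 → x ∈ L := by
  obtain ⟨l1, l2, l3⟩ := l
  obtain ⟨p1, p2⟩ := p
  simp only [ev, hat] at hp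
  have hs : 0 < l1 ^ 2 + l2 ^ 2 := by
    by_contra h
    have h1 : l1 = 0 := by nlinarith [sq_nonneg l1, sq_nonneg l2]
    have h2 : l2 = 0 := by nlinarith [sq_nonneg l1, sq_nonneg l2]
    apply hl
    have h3 : l3 = 0 := by
      rw [h1, h2] at hp
      linarith
    rw [h1, h2, h3]
    rfl
  have hne : (p1, p2) ≠ ((p1 - l2, p2 + l1) : ℝ × ℝ) := by
    intro h
    have h1 := congrArg Prod.fst h
    have h2 := congrArg Prod.snd h
    simp only at h1 h2
    have h3 : l2 = 0 := by linarith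
    have h4 : l1 = 0 := by linarith
    rw [h3, h4] at hs
    simp at hs
  refine ⟨line[ℝ, (p1, p2), (p1 - l2, p2 + l1)], ?_, ?_⟩
  · unfold IsLine
    rw [direction_affineSpan, vectorSpan_pair_rev]
    exact finrank_span_singleton (by rw [vsub_ne_zero]; exact hne.symm)
  · rintro ⟨x1, x2⟩ hx
    simp only [ev, hat] at hx
    have key : ((x1, x2) : ℝ × ℝ) = AffineMap.lineMap (p1, p2) (p1 - l2, p2 + l1)
        ((-(l2 * (x1 - p1)) + l1 * (x2 - p2)) / (l1 ^ 2 + l2 ^ 2)) := by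
      have hs' := hs.ne'
      simp only [AffineMap.lineMap_apply, vsub_eq_sub, vadd_eq_add]
      apply Prod.ext
      · simp only [Prod.fst_add, Prod.smul_fst, Prod.fst_sub, smul_eq_mul]
        field_simp
        linear_combination l1 * hx - l1 * hp
      · simp only [Prod.snd_add, Prod.smul_snd, Prod.snd_sub, smul_eq_mul]
        field_simp
        linear_combination l2 * hx - l2 * hp
    rw [key]
    exact AffineMap.lineMap_mem_affineSpan_pair _ _ _

/-- The linear form of a line of the curve. -/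
theorem exists_form {c : Fin 10 → ℝ} {p : ℝ × ℝ} (h0 : G c (hat p) = 0)
    (h : ¬ NoLine c (hat p)) :
    ∃ l : V, l ≠ 0 ∧ ev l (hat p) = 0 ∧ ∀ w, ev l w = 0 → G c w = 0 := by
  unfold NoLine at h
  push Not at h
  obtain ⟨v, h1, h2, h3, h4⟩ := h h0
  have hns : (v.1 - v.2.2 * p.1) ^ 2 + (v.2.1 - v.2.2 * p.2) ^ 2 ≠ 0 := by
    intro hs
    apply h4 v.2.2
    have e1 : v.1 - v.2.2 * p.1 = 0 := by
      nlinarith [sq_nonneg (v.1 - v.2.2 * p.1), sq_nonneg (v.2.1 - v.2.2 * p.2)]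
    have e2 : v.2.1 - v.2.2 * p.2 = 0 := by
      nlinarith [sq_nonneg (v.1 - v.2.2 * p.1), sq_nonneg (v.2.1 - v.2.2 * p.2)]
    apply Prod.ext
    · simp only [hat, Prod.smul_fst, smul_eq_mul]
      linarith
    · apply Prod.ext
      · simp only [hat, Prod.smul_snd, Prod.smul_fst, smul_eq_mul]
        linarith
      · simp only [hat, Prod.smul_snd, smul_eq_mul]
        ring
  refine ⟨cross (hat p) v, ?_, ?_, ?_⟩
  · intro hz
    apply hns
    have e1 := congrArg Prod.fst hz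
    have e2 := congrArg (fun z : V => z.2.1) hz
    simp only [cross, hat, Prod.fst_zero, Prod.snd_zero] at e1 e2
    have e3 : v.2.1 - v.2.2 * p.2 = 0 := by linarith
    have e4 : v.1 - v.2.2 * p.1 = 0 := by linarith
    rw [e3, e4]
    ring
  · simp only [ev, cross, hat]
    ring
  · intro w hw
    set D := (v.1 - v.2.2 * p.1) ^ 2 + (v.2.1 - v.2.2 * p.2) ^ 2 with hD
    set t := ((w.1 - w.2.2 * p.1) * (v.1 - v.2.2 * p.1) +
      (w.2.1 - w.2.2 * p.2) * (v.2.1 - v.2.2 * p.2)) / D with ht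
    have hw' : w = (w.2.2 - t * v.2.2) • hat p + t • v := by
      simp only [ev, cross, hat] at hw
      have htD : t * D = (w.1 - w.2.2 * p.1) * (v.1 - v.2.2 * p.1) +
        (w.2.1 - w.2.2 * p.2) * (v.2.1 - v.2.2 * p.2) := by
        rw [ht]
        field_simp
      apply Prod.ext
      · simp only [hat, Prod.fst_add, Prod.smul_fst, smul_eq_mul]
        apply mul_left_cancel₀ hns
        have e : D * ((w.2.2 - t * v.2.2) * p.1 + t * v.1) =
            D * (w.2.2 * p.1) + (t * D) * (v.1 - v.2.2 * p.1) := by ring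
        rw [e, htD, hD]
        linear_combination (-(v.2.1 - v.2.2 * p.2)) * hw
      · apply Prod.ext
        · simp only [hat, Prod.snd_add, Prod.fst_add, Prod.smul_snd, Prod.smul_fst, smul_eq_mul]
          apply mul_left_cancel₀ hns
          have e : D * ((w.2.2 - t * v.2.2) * p.2 + t * v.2.1) =
              D * (w.2.2 * p.2) + (t * D) * (v.2.1 - v.2.2 * p.2) := by ring
          rw [e, htD, hD]
          linear_combination (v.1 - v.2.2 * p.1) * hw
        · simp only [hat, Prod.snd_add, Prod.smul_snd, smul_eq_mul]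
          ring
    rw [hw', G_line, h0, h1, h2, h3]
    ring

theorem exists_u (A : Finset V) (hA : ∀ l ∈ A, l ≠ 0) : ∃ u : V, ∀ l ∈ A, ev l u ≠ 0 := by
  set q : V → ℝ[X] := fun l => C l.1 + C l.2.1 * X + C l.2.2 * X ^ 2 with hq
  have hq0 : ∀ l, l ≠ 0 → q l ≠ 0 := by
    intro l hl h
    apply hl
    have h0 := congrArg (fun r : ℝ[X] => r.coeff 0) h
    have h1 := congrArg (fun r : ℝ[X] => r.coeff 1) h
    have h2 := congrArg (fun r : ℝ[X] => r.coeff 2) h
    simp only [hq, coeff_add, coeff_C_zero, coeff_C_mul, coeff_X_zero, coeff_X_pow,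
      coeff_zero, coeff_X_one, coeff_C, coeff_X] at h0 h1 h2
    norm_num at h0 h1 h2
    exact Prod.ext h0 (Prod.ext h1 h2)
  have hprod : ∏ l ∈ A, q l ≠ 0 := Finset.prod_ne_zero_iff.2 fun l h => hq0 l (hA l h)
  obtain ⟨τ, hτ⟩ : ∃ τ, (∏ l ∈ A, q l).eval τ ≠ 0 := by
    by_contra h
    push Not at h
    exact hprod (Polynomial.funext (by simpa using h))
  rw [Polynomial.eval_prod, Finset.prod_ne_zero_iff] at hτ
  refine ⟨(1, τ, τ ^ 2), fun l h => ?_⟩
  have h1 := hτ l h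
  simp only [hq, eval_add, eval_C, eval_mul, eval_X, eval_pow] at h1
  simp only [ev]
  intro h2
  apply h1
  linarith

theorem cubic_zero {a0 a1 a2 a3 : ℝ} (s : Finset ℝ) (hs : 3 < s.card)
    (h : ∀ t ∈ s, a0 + a1 * t + a2 * t ^ 2 + a3 * t ^ 3 = 0) : a0 = 0 := by
  set P : ℝ[X] := C a0 + C a1 * X + C a2 * X ^ 2 + C a3 * X ^ 3 with hP
  have hdeg : P.natDegree ≤ 3 := by
    rw [hP]
    compute_degree
  have h0 : P = 0 := by
    refine Polynomial.eq_zero_of_natDegree_lt_card_of_eval_eq_zero' P s (fun t ht => ?_)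
      (lt_of_le_of_lt hdeg hs)
    rw [hP]
    simp only [eval_add, eval_C, eval_mul, eval_X, eval_pow]
    exact h t ht
  have h1 := congrArg (fun r : ℝ[X] => r.coeff 0) h0
  simp only [hP, coeff_add, coeff_C_zero, coeff_C_mul, coeff_X_zero, coeff_X_pow,
    coeff_zero] at h1
  norm_num at h1
  exact h1

theorem four_lines {c : Fin 10 → ℝ} (f : Fin 4 → V) (hf : ∀ i w, ev (f i) w = 0 → G c w = 0)
    (hp : ∀ i j, i < j → ∃ p : V, ev (f j) p = 0 ∧ ev (f i) p ≠ 0) (hn : ∀ i, f i ≠ 0) (v : V) :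
    G c v = 0 := by
  classical
  by_cases hv : ∃ i, ev (f i) v = 0
  · obtain ⟨i, hi⟩ := hv
    exact hf i v hi
  push Not at hv
  obtain ⟨u, hu⟩ := exists_u (Finset.univ.image f ∪
    ((Finset.univ.filter fun x : Fin 4 × Fin 4 => x.1 < x.2).image fun x =>
      ev (f x.1) v • f x.2 - ev (f x.2) v • f x.1)) (by
    intro l hl
    rw [Finset.mem_union, Finset.mem_image, Finset.mem_image] at hl
    rcases hl with ⟨i, _, rfl⟩ | ⟨⟨i, j⟩, hij, rfl⟩
    · exact hn i
    · intro h0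
      obtain ⟨p, h1, h2⟩ := hp i j (Finset.mem_filter.1 hij).2
      have h3 : ev (ev (f i) v • f j - ev (f j) v • f i) p = 0 := by
        simp only at h0
        rw [h0]
        simp [ev]
      rw [ev_sub_left, ev_smul_left, ev_smul_left, h1, mul_zero, zero_sub, neg_eq_zero] at h3
      rcases mul_eq_zero.1 h3 with h4 | h4
      · exact hv j h4
      · exact h2 h4)
  have hu1 : ∀ i, ev (f i) u ≠ 0 := fun i =>
    hu _ (Finset.mem_union_left _ (Finset.mem_image_of_mem _ (Finset.mem_univ _)))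
  have hu2 : ∀ i j, i < j → ev (f i) v * ev (f j) u ≠ ev (f j) v * ev (f i) u := by
    intro i j hij h
    refine hu _ (Finset.mem_union_right _ (Finset.mem_image.2 ⟨(i, j),
      Finset.mem_filter.2 ⟨Finset.mem_univ _, hij⟩, rfl⟩)) ?_
    rw [ev_sub_left, ev_smul_left, ev_smul_left, h, sub_self]
  set t : Fin 4 → ℝ := fun i => ev (f i) v / ev (f i) u with ht
  have htinj : Function.Injective t := by
    intro i j hij
    by_contra hne
    simp only [ht] at hij
    rw [div_eq_div_iff (hu1 i) (hu1 j)] at hij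
    rcases lt_or_gt_of_ne hne with h | h
    · exact hu2 i j h hij
    · exact hu2 j i h hij.symm
  have hcard : (Finset.univ.image t).card = 4 := by
    rw [Finset.card_image_of_injective _ htinj, Finset.card_univ, Fintype.card_fin]
  refine cubic_zero (a0 := G c v) (a1 := -3 * T c v v u) (a2 := 3 * T c v u u) (a3 := - G c u)
    (Finset.univ.image t) (by rw [hcard]; norm_num) ?_
  intro s hs
  obtain ⟨i, _, rfl⟩ := Finset.mem_image.1 hs
  have h1 : ev (f i) ((1 : ℝ) • v + (-(t i)) • u) = 0 := by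
    rw [ev_add, ev_smul, ev_smul]
    simp only [ht]
    have := hu1 i
    field_simp
    ring
  have h2 := hf i _ h1
  rw [G_line] at h2
  linear_combination h2

theorem c_zero {c : Fin 10 → ℝ} (h : ∀ v, G c v = 0) : c = 0 := by
  have e1 := h (1, 0, 0)
  have e2 := h (0, 1, 0)
  have e3 := h (0, 0, 1)
  have e4 := h (1, 1, 0)
  have e5 := h (1, -1, 0)
  have e6 := h (1, 0, 1)
  have e7 := h (1, 0, -1)
  have e8 := h (0, 1, 1)
  have e9 := h (0, 1, -1)
  have e10 := h (1, 1, 1)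
  simp only [G, T] at e1 e2 e3 e4 e5 e6 e7 e8 e9 e10
  ring_nf at e1 e2 e3 e4 e5 e6 e7 e8 e9 e10
  funext i
  fin_cases i <;> simp only [Pi.zero_apply] <;> (try simp) <;> linarith

/-- ROW LIN. -/
theorem lin : LINStmt := by
  intro c hc S hS
  by_contra hno
  push Not at hno
  obtain ⟨L0, hL0⟩ : ∃ L : AffineSubspace ℝ (ℝ × ℝ), IsLine L := by
    obtain ⟨L, hL, -⟩ := exists_line (l := (1, 0, 0)) (p := (0, 0)) (by simp) (by simp [ev, hat])
    exact ⟨L, hL⟩
  have key : ∀ p ∈ S, ∃ (l : V) (L : AffineSubspace ℝ (ℝ × ℝ)), l ≠ 0 ∧ ev l (hat p) = 0 ∧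
      (∀ w, ev l w = 0 → G c w = 0) ∧ IsLine L ∧ ∀ x : ℝ × ℝ, ev l (hat x) = 0 → x ∈ L := by
    intro p hp
    obtain ⟨l, h1, h2, h3⟩ := exists_form (hS p hp).1 (hS p hp).2
    obtain ⟨L, h4, h5⟩ := exists_line h1 h2
    exact ⟨l, L, h1, h2, h3, h4, h5⟩
  obtain ⟨p1, hp1, -⟩ := hno ![L0, L0, L0] (by intro i; fin_cases i <;> exact hL0)
  obtain ⟨l1, L1, n1, z1, g1, i1, c1⟩ := key p1 hp1
  obtain ⟨p2, hp2, q2⟩ := hno ![L1, L1, L1] (by intro i; fin_cases i <;> exact i1)
  obtain ⟨l2, L2, n2, z2, g2, i2, c2⟩ := key p2 hp2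
  obtain ⟨p3, hp3, q3⟩ := hno ![L1, L2, L2] (by
    intro i; fin_cases i; exacts [i1, i2, i2])
  obtain ⟨l3, L3, n3, z3, g3, i3, c3⟩ := key p3 hp3
  obtain ⟨p4, hp4, q4⟩ := hno ![L1, L2, L3] (by
    intro i; fin_cases i; exacts [i1, i2, i3])
  obtain ⟨l4, L4, n4, z4, g4, i4, c4⟩ := key p4 hp4
  have a12 : ev l1 (hat p2) ≠ 0 := fun h => q2 0 (c1 _ h)
  have a13 : ev l1 (hat p3) ≠ 0 := fun h => q3 0 (c1 _ h)
  have a23 : ev l2 (hat p3) ≠ 0 := fun h => q3 1 (c2 _ h)
  have a14 : ev l1 (hat p4) ≠ 0 := fun h => q4 0 (c1 _ h)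
  have a24 : ev l2 (hat p4) ≠ 0 := fun h => q4 1 (c2 _ h)
  have a34 : ev l3 (hat p4) ≠ 0 := fun h => q4 2 (c3 _ h)
  apply hc
  apply c_zero
  refine four_lines ![l1, l2, l3, l4] ?_ ?_ ?_
  · intro i
    fin_cases i
    exacts [g1, g2, g3, g4]
  · intro i j hij
    fin_cases i <;> fin_cases j <;> first
      | exact absurd hij (by decide)
      | exact ⟨_, z2, a12⟩
      | exact ⟨_, z3, a13⟩
      | exact ⟨_, z4, a14⟩
      | exact ⟨_, z3, a23⟩
      | exact ⟨_, z4, a24⟩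
      | exact ⟨_, z4, a34⟩
  · intro i
    fin_cases i
    exacts [n1, n2, n3, n4]

end Pool.Agent.NCub.H56
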